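import Pool.Agent.H21.Pebble

set_option autoImplicit false

namespace Pool.Agent.Results.MP_294a3d_co.FanCounter
open Finset Pool.Agent.H21

/-- chordal: no induced cycle of length at least 4 -/
def Chordal {n : ℕ} (G : SimpleGraph (Fin n)) : Prop :=
  ∀ k, 4 ≤ k → IsEmpty (SimpleGraph.cycleGraph k ↪g G)

/-- simplicial vertex: the neighbours form a clique -/
def Simplicial {n : ℕ} (G : SimpleGraph (Fin n)) (v : Fin n) : Prop := G.IsClique (G.neighborSet v)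

/-- a pebbling step: two pebbles are removed from `u`, one is added to a neighbour `v` -/
def Move {n : ℕ} (G : SimpleGraph (Fin n)) (A B : Fin n → ℕ) : Prop :=
  ∃ u v, G.Adj u v ∧ 2 ≤ A u ∧ B = Function.update (Function.update A u (A u - 2)) v (A v + 1)

def Solvable {n : ℕ} (G : SimpleGraph (Fin n)) (D C : Fin n → ℕ) : Prop :=
  ∃ E, Relation.ReflTransGen (Move G) C E ∧ ∀ v, D v ≤ E v

def Maximal {n : ℕ} (G : SimpleGraph (Fin n)) (D C : Fin n → ℕ) : Prop :=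
  ¬ Solvable G D C ∧ ∀ v, Solvable G D (Function.update C v (C v + 1))

def Extremal {n : ℕ} (G : SimpleGraph (Fin n)) (D C : Fin n → ℕ) : Prop :=
  Maximal G D C ∧ ∀ C', Maximal G D C' → ∑ v, C' v ≤ ∑ v, C v

def adj (u v : Fin 6) : Bool :=
  (u.1, v.1) ∈ [(0, 4), (4, 2), (2, 3), (3, 1), (0, 5), (1, 5), (2, 5), (3, 5), (4, 5)]

/-- the path `0, 4, 2, 3, 1` and the vertex `5` adjacent to all of it -/
def fan : SimpleGraph (Fin 6) where
  Adj u v := adj u v = true ∨ adj v u = true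
  symm := ⟨fun _ _ h => h.symm⟩
  loopless := ⟨by decide⟩

instance : DecidableRel fan.Adj := fun u v =>
  inferInstanceAs (Decidable (adj u v = true ∨ adj v u = true))

def D : Fin 6 → ℕ := ![1, 1, 0, 0, 0, 0]

def mv : List (Fin 6 × Fin 6) :=
  [(4, 0), (3, 1), (5, 0), (5, 1), (2, 5), (0, 5), (1, 5), (3, 5), (4, 5), (2, 4), (2, 3),
    (0, 4), (1, 3), (4, 2), (3, 2)]

def solv : ℕ → (Fin 6 → ℕ) → Bool
  | 0, _ => false
  | f + 1, A => (decide (1 ≤ A 0) && decide (1 ≤ A 1)) || mv.any fun p => decide (2 ≤ A p.1) &&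
      solv f (Function.update (Function.update A p.1 (A p.1 - 2)) p.2 (A p.2 + 1))

theorem solv_sound (f : ℕ) (A : Fin 6 → ℕ) (h : solv f A = true) : Solvable fan D A := by
  induction f generalizing A with
  | zero => simp [solv] at h
  | succ f ih =>
    simp only [solv, Bool.or_eq_true, Bool.and_eq_true, decide_eq_true_eq, List.any_eq_true] at h
    rcases h with h | ⟨p, hp, h2, h⟩
    · refine ⟨A, .refl, fun v => ?_⟩
      fin_cases v <;> simp [D, h.1, h.2]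
    · obtain ⟨E, h3, h4⟩ := ih _ h
      have : ∀ p ∈ mv, fan.Adj p.1 p.2 := by decide
      exact ⟨E, .head ⟨p.1, p.2, this p hp, h2, rfl⟩ h3, h4⟩

theorem move_eq : Move fan = Pebble.Step fan.Adj := Pebble.graph_step_iff fan

theorem mono (A B : Fin 6 → ℕ) (h : A ≤ B) (hA : Solvable fan D A) : Solvable fan D B := by
  obtain ⟨E, h1, h2⟩ := hA
  rw [move_eq] at h1
  obtain ⟨E', h3, h4⟩ := Pebble.Reach.of_le h1 h
  exact ⟨E', by rw [move_eq]; exact h3, fun v => (h2 v).trans (h4 v)⟩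

theorem s8 : ∀ a ≤ 8, ∀ b ≤ 8 - a, ∀ c ≤ 8 - a - b, ∀ d ≤ 8 - a - b - c, ∀ e ≤ 8 - a - b - c - d,
    solv 8 ![a, b, c, d, e, 8 - a - b - c - d - e] = true := by decide +kernel

set_option synthInstance.maxSize 4096 in
theorem s7 : ∀ a ≤ 7, ∀ c ≤ 1, ∀ d ≤ 1, ∀ e ≤ 1, ∀ f ≤ 1, a + c + d + e + f ≤ 7 →
    solv 8 ![a, 7 - a - c - d - e - f, c, d, e, f] = true := by decide +kernel

theorem big (C : Fin 6 → ℕ) (h : 8 ≤ ∑ v, C v) : Solvable fan D C := by
  rw [Fin.sum_univ_six] at h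
  refine mono _ _ ?_ (solv_sound _ _ (s8 (min (C 0) 8) (by omega)
    (min (C 1) (8 - min (C 0) 8)) (by omega)
    (min (C 2) (8 - C 0 - C 1)) (by omega)
    (min (C 3) (8 - C 0 - C 1 - C 2)) (by omega)
    (min (C 4) (8 - C 0 - C 1 - C 2 - C 3)) (by omega)))
  intro v
  fin_cases v <;> simp <;> omega

theorem unsolv : ¬ Solvable fan D ![0, 0, 7, 0, 0, 0] := by
  rintro ⟨E, h1, h2⟩
  rw [move_eq] at h1
  have key : ∑ x, (![4, 4, 1, 2, 2, 2] : Fin 6 → ℕ) x * E x ≤ 7 := by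
    clear h2
    induction h1 with
    | refl => decide
    | tail _ h ih =>
      obtain ⟨u, v, huv, e⟩ := h
      have h3 := Pebble.sum_step e ![4, 4, 1, 2, 2, 2]
      have h4 : ∀ u v, fan.Adj u v → (![4, 4, 1, 2, 2, 2] : Fin 6 → ℕ) v ≤
          2 * (![4, 4, 1, 2, 2, 2] : Fin 6 → ℕ) u := by decide
      have := h4 u v huv
      linarith
  have h3 := h2 0
  have h4 := h2 1
  simp [Fin.sum_univ_six, D] at key h3 h4
  omega

theorem chordal : Chordal fan := by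
  intro k hk
  constructor
  intro f
  have h6 : k ≤ 6 := by simpa using Fintype.card_le_of_embedding f.toEmbedding
  have hn : ∀ i j, i ≠ j → f i ≠ f j := fun i j h e => h (f.injective e)
  interval_cases k
  · have : ∀ a b, fan.Adj a b → ∀ c, fan.Adj b c → a ≠ c → ¬ fan.Adj a c → ∀ d, fan.Adj c d →
        b ≠ d → ¬ fan.Adj b d → ¬ fan.Adj d a := by decide +kernel
    refine this (f 0) (f 1) ?_ (f 2) ?_ (hn _ _ ?_) ?_ (f 3) ?_ (hn _ _ ?_) ?_ ?_ <;>
      (try rw [f.map_adj_iff]) <;> decide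
  · have : ∀ a b, fan.Adj a b → ∀ c, fan.Adj b c → a ≠ c → ¬ fan.Adj a c → ∀ d, fan.Adj c d →
        b ≠ d → ¬ fan.Adj b d → ¬ fan.Adj a d → ∀ e, fan.Adj d e → ¬ fan.Adj c e → c ≠ e →
        ¬ fan.Adj e a := by decide +kernel
    refine this (f 0) (f 1) ?_ (f 2) ?_ (hn _ _ ?_) ?_ (f 3) ?_ (hn _ _ ?_) ?_ ?_ (f 4) ?_ ?_
      (hn _ _ ?_) ?_ <;> (try rw [f.map_adj_iff]) <;> decide
  · have : ∀ a b, fan.Adj a b → ∀ c, fan.Adj b c → a ≠ c → ¬ fan.Adj a c → ∀ d, fan.Adj c d →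
        b ≠ d → ¬ fan.Adj b d → ¬ fan.Adj a d → ∀ e, fan.Adj d e → ¬ fan.Adj c e → c ≠ e →
        ¬ fan.Adj a e → ∀ g, fan.Adj e g → ¬ fan.Adj d g → d ≠ g → ¬ fan.Adj g a := by
      decide +kernel
    refine this (f 0) (f 1) ?_ (f 2) ?_ (hn _ _ ?_) ?_ (f 3) ?_ (hn _ _ ?_) ?_ ?_ (f 4) ?_ ?_
      (hn _ _ ?_) ?_ (f 5) ?_ ?_ (hn _ _ ?_) ?_ <;> (try rw [f.map_adj_iff]) <;> decide

theorem result : ∃ (n : ℕ) (G : SimpleGraph (Fin n)) (D C : Fin n → ℕ),
    G.Connected ∧ Chordal G ∧ Extremal G D C ∧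
    ∀ C', ¬ Solvable G D C' → ∑ v, C v ≤ ∑ v, C' v → ∃ v, ¬ Simplicial G v ∧ 2 ≤ C' v := by
  refine ⟨6, fan, D, ![0, 0, 7, 0, 0, 0], by decide, chordal, ⟨⟨unsolv, fun v => big _ ?_⟩, ?_⟩, ?_⟩
  · revert v; decide
  · intro C' h
    by_contra hc
    exact h.1 (big _ (by rw [show ∑ v, (![0, 0, 7, 0, 0, 0] : Fin 6 → ℕ) v = 7 by decide] at hc; omega))
  · intro C h1 h2
    rw [show ∑ v, (![0, 0, 7, 0, 0, 0] : Fin 6 → ℕ) v = 7 by decide] at h2
    have h3 : ¬ 8 ≤ ∑ v, C v := fun h => h1 (big _ h)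
    by_contra hc
    push Not at hc
    have hs : ∀ v : Fin 6, 2 ≤ v.1 → ¬ Simplicial fan v := by
      simp only [Simplicial, SimpleGraph.isClique_iff, Set.Pairwise, SimpleGraph.mem_neighborSet]
      decide
    have a2 := hc 2 (hs _ (by decide))
    have a3 := hc 3 (hs _ (by decide))
    have a4 := hc 4 (hs _ (by decide))
    have a5 := hc 5 (hs _ (by decide))
    rw [Fin.sum_univ_six] at h2 h3
    refine h1 (mono _ _ ?_ (solv_sound _ _ (s7 (C 0) (by omega) (C 2) (by omega) (C 3) (by omega)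
      (C 4) (by omega) (C 5) (by omega) (by omega))))
    intro v
    fin_cases v <;> simp <;> omega

end Pool.Agent.Results.MP_294a3d_co.FanCounter
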